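import Pool.Agent.W684.SG.Stm

/-! SG-FUS: fusion for the countable support product of Silver forcings. -/

set_option autoImplicit false

namespace Pool.Agent.W853.SG

open Pool.Agent.W684.SG Pool.Agent.Helper669.Forcing

variable {K : Type}

/-- all points of `E` are undecided in `q` -/
def Und (q : Cond K) (E : Finset (K × ℕ)) : Prop := ∀ d ∈ E, q.val d.1 d.2 = none

theorem fill_val_in (q : Cond K) (u : K × ℕ → Bool) (E : Finset (K × ℕ)) {k : K} {n : ℕ}
    (h : q.val k n = none ∧ (k, n) ∈ E) : (fill q u E).val k n = some (u (k, n)) := by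
  simp only [fill, if_pos h]

theorem fill_val_out (q : Cond K) (u : K × ℕ → Bool) (E : Finset (K × ℕ)) {k : K} {n : ℕ}
    (h : ¬ (q.val k n = none ∧ (k, n) ∈ E)) : (fill q u E).val k n = q.val k n := by
  simp only [fill, if_neg h]

theorem fill_le (q : Cond K) (u : K × ℕ → Bool) (E : Finset (K × ℕ)) : fill q u E ≤ q := by
  intro k n b hb
  rw [fill_val_out, hb]
  rintro ⟨h, -⟩
  rw [hb] at h
  exact Option.some_ne_none _ h

theorem fill_mono {q q' : Cond K} (u : K × ℕ → Bool) {E : Finset (K × ℕ)} (h : q' ≤ q)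
    (hU : Und q' E) : fill q' u E ≤ fill q u E := by
  intro k n b hb
  by_cases hc : q.val k n = none ∧ (k, n) ∈ E
  · rw [fill_val_in q u E hc] at hb
    rw [fill_val_in q' u E ⟨hU _ hc.2, hc.2⟩, hb]
  · rw [fill_val_out q u E hc] at hb
    have := h k n b hb
    rw [fill_val_out, this]
    rintro ⟨h, -⟩
    rw [this] at h
    exact Option.some_ne_none _ h

open Classical in
/-- the condition `s` with the points of `E` erased -/
noncomputable def clear (s : Cond K) (E : Finset (K × ℕ)) : Cond K where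
  val k n := if (k, n) ∈ E then none else s.val k n
  cnt := by
    refine s.cnt.mono ?_
    rintro k ⟨n, hn⟩
    refine ⟨n, ?_⟩
    by_cases h : (k, n) ∈ E
    · simp only [h, if_true] at hn
      exact absurd rfl hn
    · simpa only [h, if_false] using hn
  inf := by
    intro k N
    obtain ⟨n, hn, h⟩ := s.inf k N
    refine ⟨n, hn, ?_⟩
    by_cases h' : (k, n) ∈ E
    · simp only [h', if_true]
    · simpa only [h', if_false] using h

theorem clear_in (s : Cond K) (E : Finset (K × ℕ)) {k : K} {n : ℕ} (h : (k, n) ∈ E) :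
    (clear s E).val k n = none := by
  simp only [clear, if_pos h]

theorem clear_out (s : Cond K) (E : Finset (K × ℕ)) {k : K} {n : ℕ} (h : (k, n) ∉ E) :
    (clear s E).val k n = s.val k n := by
  simp only [clear, if_neg h]

theorem step1 {p : Cond K} {D : Set (Cond K)} (hD : Down D) (hd : ∀ r ≤ p, ∃ s ≤ r, s ∈ D)
    {q : Cond K} (hq : q ≤ p) {E : Finset (K × ℕ)} (hU : Und q E) (u : K × ℕ → Bool) :
    ∃ q' ≤ q, Und q' E ∧ fill q' u E ∈ D := by
  obtain ⟨s, hs, hsD⟩ := hd (fill q u E) ((fill_le q u E).trans hq)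
  refine ⟨clear s E, ?_, ?_, ?_⟩
  · intro k n b hb
    have h1 : (k, n) ∉ E := by
      intro h
      have := hU _ h
      rw [hb] at this
      exact Option.some_ne_none _ this
    rw [clear_out s E h1]
    apply hs
    rw [fill_val_out, hb]
    exact fun h => h1 h.2
  · rintro ⟨k, n⟩ h
    exact clear_in s E h
  · refine hD _ hsD _ ?_
    intro k n b hb
    by_cases h : (k, n) ∈ E
    · have h1 : s.val k n = some (u (k, n)) := by
        apply hs
        exact fill_val_in q u E ⟨hU _ h, h⟩
      rw [fill_val_in _ _ _ ⟨clear_in s E h, h⟩, ← hb, h1]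
    · rw [fill_val_out _ _ _ (fun h' => h h'.2), clear_out s E h, hb]

open Classical in
/-- indicator function -/
noncomputable def ind (a : Finset (K × ℕ)) (d : K × ℕ) : Bool := decide (d ∈ a)

theorem step2 {p : Cond K} {D : Set (Cond K)} (hD : Down D) (hd : ∀ r ≤ p, ∃ s ≤ r, s ∈ D)
    {q : Cond K} (hq : q ≤ p) {E : Finset (K × ℕ)} (hU : Und q E)
    (A : Finset (Finset (K × ℕ))) :
    ∃ q' ≤ q, Und q' E ∧ ∀ a ∈ A, fill q' (ind a) E ∈ D := by
  classical
  induction A using Finset.induction_on with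
  | empty => exact ⟨q, le_rfl, hU, by simp⟩
  | insert a A _ ih =>
    obtain ⟨q1, h1, h2, h3⟩ := ih
    obtain ⟨q2, g1, g2, g3⟩ := step1 hD hd (h1.trans hq) h2 (ind a)
    refine ⟨q2, g1.trans h1, g2, ?_⟩
    intro b hb
    rcases Finset.mem_insert.1 hb with rfl | hb
    · exact g3
    · exact hD _ (h3 b hb) _ (fill_mono _ g1 g2)

theorem step3 {p : Cond K} {D : Set (Cond K)} (hD : Down D) (hd : ∀ r ≤ p, ∃ s ≤ r, s ∈ D)
    {q : Cond K} (hq : q ≤ p) {E : Finset (K × ℕ)} (hU : Und q E) :
    ∃ q' ≤ q, Und q' E ∧ ∀ r ≤ q', Decides r E → r ∈ D := by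
  classical
  obtain ⟨q', h1, h2, h3⟩ := step2 hD hd hq hU E.powerset
  refine ⟨q', h1, h2, fun r hr hdec => ?_⟩
  have h4 := h3 (E.filter fun d => r.val d.1 d.2 = some true)
    (Finset.mem_powerset.2 (Finset.filter_subset _ _))
  refine hD _ h4 _ ?_
  intro k n b hb
  by_cases hc : q'.val k n = none ∧ (k, n) ∈ E
  · rw [fill_val_in _ _ _ hc] at hb
    obtain ⟨c, hc'⟩ := Option.ne_none_iff_exists'.1 (hdec _ hc.2)
    simp only at hc'
    rw [hc', ← hb]
    congr 1
    unfold ind
    cases c with
    | true => simp [hc.2, hc']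
    | false => simp [hc']
  · rw [fill_val_out _ _ _ hc] at hb
    exact hr k n b hb

theorem exists_enum (q : Cond K) : ∃ c : ℕ → Option K,
    ∀ k, (∃ n, q.val k n ≠ none) → ∃ j, c j = some k := by
  rcases Set.eq_empty_or_nonempty {k | ∃ n, q.val k n ≠ none} with h | h
  · refine ⟨fun _ => none, fun k hk => ?_⟩
    have : k ∈ {k | ∃ n, q.val k n ≠ none} := hk
    rw [h] at this
    exact absurd this (Set.notMem_empty k)
  · obtain ⟨f, hf⟩ := q.cnt.exists_eq_range h
    refine ⟨fun j => some (f j), fun k hk => ?_⟩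
    have : k ∈ {k | ∃ n, q.val k n ≠ none} := hk
    rw [hf] at this
    obtain ⟨j, hj⟩ := this
    exact ⟨j, congrArg some hj⟩

/-- states -/
structure State (K : Type) where
  /-- condition -/
  q : Cond K
  /-- finite set -/
  E : Finset (K × ℕ)
  /-- enumerations of the supports -/
  h : ℕ → ℕ → Option K

open Classical in
/-- the columns under care in step `n` -/
noncomputable def cols (h : ℕ → ℕ → Option K) (n : ℕ) : Finset K :=
  ((Finset.range (n + 1)) ×ˢ (Finset.range (n + 1))).biUnion fun mj => (h mj.1 mj.2).toFinset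

theorem mem_cols {h : ℕ → ℕ → Option K} {n m j : ℕ} {k : K} (hm : m ≤ n) (hj : j ≤ n)
    (hk : h m j = some k) : k ∈ cols h n := by
  classical
  unfold cols
  rw [Finset.mem_biUnion]
  refine ⟨(m, j), ?_, ?_⟩
  · rw [Finset.mem_product, Finset.mem_range, Finset.mem_range]
    exact ⟨by omega, by omega⟩
  · simp [hk]

theorem fusion : Pool.Agent.W684.SG.S_FUS := by
  classical
  intro K p D hD hd
  choose c hc using fun q : Cond K => exists_enum q
  -- one step
  have step : ∀ (n : ℕ) (s : {s : State K // s.q ≤ p ∧ Und s.q s.E}),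
      ∃ s' : {s : State K // s.q ≤ p ∧ Und s.q s.E}, s'.1.q ≤ s.1.q ∧ s.1.E ⊆ s'.1.E ∧
        (∀ r ≤ s'.1.q, Decides r s.1.E → r ∈ D n) ∧
        (∀ k ∈ cols s.1.h n, ∃ i, n + 1 ≤ i ∧ (k, i) ∈ s'.1.E) ∧
        s'.1.h = Function.update s.1.h (n + 1) (c s'.1.q) := by
    rintro n ⟨⟨q, E, h⟩, hq, hU⟩
    simp only at hq hU
    obtain ⟨q', h1, h2, h3⟩ := step3 (hD n) (hd n) hq hU
    choose pt hpt using fun k : K => q'.inf k (n + 1)
    refine ⟨⟨⟨q', E ∪ (cols h n).image fun k => (k, pt k), Function.update h (n + 1) (c q')⟩,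
      h1.trans hq, ?_⟩, h1, Finset.subset_union_left, h3, ?_, rfl⟩
    · intro d hd'
      simp only at hd' ⊢
      rcases Finset.mem_union.1 hd' with h4 | h4
      · exact h2 d h4
      · obtain ⟨k, -, rfl⟩ := Finset.mem_image.1 h4
        exact (hpt k).2
    · intro k hk
      exact ⟨pt k, (hpt k).1, Finset.mem_union_right _ (Finset.mem_image.2 ⟨k, hk, rfl⟩)⟩
  choose f hf using step
  set s0 : {s : State K // s.q ≤ p ∧ Und s.q s.E} :=
    ⟨⟨p, ∅, fun _ => c p⟩, le_rfl, by intro d hd'; simp at hd'⟩ with hs0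
  set s : ℕ → {s : State K // s.q ≤ p ∧ Und s.q s.E} :=
    fun n => Nat.rec s0 (fun n x => f n x) n with hs
  have hstep : ∀ n, (s (n + 1)).1.q ≤ (s n).1.q ∧ (s n).1.E ⊆ (s (n + 1)).1.E ∧
        (∀ r ≤ (s (n + 1)).1.q, Decides r (s n).1.E → r ∈ D n) ∧
        (∀ k ∈ cols (s n).1.h n, ∃ i, n + 1 ≤ i ∧ (k, i) ∈ (s (n + 1)).1.E) ∧
        (s (n + 1)).1.h = Function.update (s n).1.h (n + 1) (c (s (n + 1)).1.q) :=
    fun n => hf n (s n)
  set Q : ℕ → Cond K := fun n => (s n).1.q with hQ
  have hanti : ∀ m n, m ≤ n → Q n ≤ Q m := by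
    intro m n hmn
    induction n, hmn using Nat.le_induction with
    | base => exact le_rfl
    | succ n _ ih => exact (hstep n).1.trans ih
  have hEmono : ∀ m n, m ≤ n → (s m).1.E ⊆ (s n).1.E := by
    intro m n hmn
    induction n, hmn using Nat.le_induction with
    | base => exact Finset.Subset.refl _
    | succ n _ ih => exact ih.trans (hstep n).2.1
  have hh : ∀ m n, m ≤ n → (s n).1.h m = c (Q m) := by
    intro m n hmn
    induction n, hmn using Nat.le_induction with
    | base =>
      cases m with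
      | zero => rfl
      | succ m => rw [(hstep m).2.2.2.2, Function.update_self]
    | succ n hn ih =>
      rw [(hstep n).2.2.2.2, Function.update_of_ne (by omega), ih]
  have hund : ∀ m n, ∀ d ∈ (s n).1.E, (Q m).val d.1 d.2 = none := by
    intro m n d hd'
    have h1 : d ∈ (s (max m n)).1.E := hEmono n _ (le_max_right _ _) hd'
    have h2 := (s (max m n)).2.2 d h1
    by_contra h3
    obtain ⟨b, hb⟩ := Option.ne_none_iff_exists'.1 h3
    have h4 := hanti m (max m n) (le_max_left _ _) d.1 d.2 b hb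
    change (Q (max m n)).val d.1 d.2 = none at h2
    rw [h2] at h4
    exact Option.some_ne_none _ h4.symm
  -- the limit
  set L : K → ℕ → Option Bool := fun k n =>
    if h : ∃ m, (Q m).val k n ≠ none then (Q h.choose).val k n else none with hL
  have hLval : ∀ m k n b, (Q m).val k n = some b → L k n = some b := by
    intro m k n b hb
    have h : ∃ m, (Q m).val k n ≠ none := ⟨m, by rw [hb]; exact Option.some_ne_none _⟩
    simp only [hL, dif_pos h]
    obtain ⟨b0, hb0⟩ := Option.ne_none_iff_exists'.1 h.choose_spec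
    have h1 := hanti m (max m h.choose) (le_max_left _ _) k n b hb
    have h2 := hanti h.choose (max m h.choose) (le_max_right _ _) k n b0 hb0
    rw [h1] at h2
    rw [hb0, h2]
  have hLnone : ∀ k n, (∀ m, (Q m).val k n = none) → L k n = none := by
    intro k n h
    have h' : ¬ ∃ m, (Q m).val k n ≠ none := by
      rintro ⟨m, hm⟩
      exact hm (h m)
    simp only [hL, dif_neg h']
  have hLne : ∀ k n, L k n ≠ none → ∃ m, (Q m).val k n ≠ none := by
    intro k n h
    by_contra h'
    refine h (hLnone k n fun m => ?_)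
    by_contra h''
    exact h' ⟨m, h''⟩
  let q : Cond K :=
    { val := L
      cnt := by
        refine (Set.countable_iUnion fun m => (Q m).cnt).mono ?_
        rintro k ⟨n, hn⟩
        obtain ⟨m, hm⟩ := hLne k n hn
        exact Set.mem_iUnion.2 ⟨m, n, hm⟩
      inf := by
        intro k N
        by_cases h : ∃ m, ∃ n, (Q m).val k n ≠ none
        · obtain ⟨m, hm⟩ := h
          obtain ⟨j, hj⟩ := hc (Q m) k hm
          set n := max m (max j N) with hn
          have n1 : m ≤ n := le_max_left _ _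
          have n2 : j ≤ n := (le_max_left _ _).trans (le_max_right _ _)
          have n3 : N ≤ n := (le_max_right _ _).trans (le_max_right _ _)
          have h1 : (s n).1.h m j = some k := by rw [hh m n n1, hj]
          obtain ⟨i, hi, hiE⟩ := (hstep n).2.2.2.1 k (mem_cols n1 n2 h1)
          exact ⟨i, by omega, hLnone k i fun m' => hund m' (n + 1) (k, i) hiE⟩
        · refine ⟨N, le_rfl, hLnone k N fun m => ?_⟩
          by_contra h''
          exact h ⟨m, N, h''⟩ }
  have hq : ∀ m, q ≤ Q m := fun m k n b hb => hLval m k n b hb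
  exact ⟨q, hq 0, fun n => (s n).1.E, fun n r hr hdec =>
    (hstep n).2.2.1 r (hr.trans (hq (n + 1))) hdec⟩

end Pool.Agent.W853.SG
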